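import Pool.Agent.Lib_helper67.LR.Final

/-!
A power saving in the log-rank problem for all XOR functions: there is an absolute constant `C`
such that for every `n` and every `f : F_2^n -> {0,1}` the function `F(x, y) = f(x + y)` has a
deterministic two-party protocol of cost at most `C * r ^ 0.4999`, where `r` is the real rank of
its communication matrix.
-/

set_option autoImplicit false

namespace Pool.Agent.Results.MP_e5d384_lc.XorFunctions

open Pool.Agent.Lib_helper78.LR

theorem result : ∃ C : ℝ, ∀ (n : ℕ) (f : (Fin n → ZMod 2) → Bool),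
    ∃ π : Protocol (Fin n → ZMod 2) (Fin n → ZMod 2), (∀ x y, π.eval x y = f (x + y)) ∧
      (π.cost : ℝ) ≤
        C * (realRank fun x y : Fin n → ZMod 2 => f (x + y) : ℝ) ^ (4999 / 10000 : ℝ) :=
  Pool.Agent.Lib_helper67.LR.final

end Pool.Agent.Results.MP_e5d384_lc.XorFunctions
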